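import Pool.Agent.ImmLog.M25

/-!
# Logarithmic-size clique immersions above the immersion threshold

For all `k ≥ 1`, `ε > 0` there is `α` such that every graph on `n ≥ 2` vertices with average degree
at least `imm k + ε` contains a `K_k`-immersion using at most `α * log n` vertices.
-/

set_option autoImplicit false

namespace Pool.Agent.Results.MP_66278f_co.SmallImmersion

/-- A `K_k`-immersion in the graph `G`: distinct branch vertices `f 0, ..., f (k-1)` and, for each
pair `i < j`, a path from `f i` to `f j`, these paths being pairwise edge-disjoint. -/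
structure CliqueImmersion {V : Type} (G : SimpleGraph V) (k : ℕ) where
  /-- branch vertices -/
  f : Fin k → V
  inj : Function.Injective f
  /-- the path between two branch vertices (only the values with `i < j` are used) -/
  P : ∀ i j : Fin k, G.Walk (f i) (f j)
  isPath : ∀ i j : Fin k, i < j → (P i j).IsPath
  disj : ∀ i j i' j' : Fin k, i < j → i' < j' → (i ≠ i' ∨ j ≠ j') →
    (P i j).edges.Disjoint (P i' j').edges

/-- The vertices used by an immersion: the branch vertices and the vertices of the paths. -/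
def CliqueImmersion.verts {V : Type} {G : SimpleGraph V} {k : ℕ} (I : CliqueImmersion G k) :
    Set V :=
  {v | (∃ i, I.f i = v) ∨ ∃ i j, i < j ∧ v ∈ (I.P i j).support}

/-- The average degree of a graph on `n` vertices. -/
noncomputable def avgDeg {n : ℕ} (G : SimpleGraph (Fin n)) : ℝ :=
  2 * (G.edgeSet.ncard : ℝ) / (n : ℝ)

/-- `imm k`: the infimum of the reals `d` such that every finite nonempty graph of average degree at
least `d` has a `K_k`-immersion. -/
noncomputable def imm (k : ℕ) : ℝ :=
  sInf {d : ℝ | ∀ (m : ℕ) (H : SimpleGraph (Fin m)), 1 ≤ m → d ≤ avgDeg H →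
    Nonempty (CliqueImmersion H k)}

/-- (proof) a one-vertex graph shows that `K_k`-immersions force `k ≤ 1`. -/
theorem k_le_one_of_fin_one {k : ℕ} (I : CliqueImmersion (⊥ : SimpleGraph (Fin 1)) k) : k ≤ 1 := by
  have := Fintype.card_le_of_injective I.f I.inj
  simpa using this

/-- (proof) the set of thresholds used in `ImmLog.main`. -/
theorem thr_le_imm (k : ℕ) (hk : 1 ≤ k) :
    sInf {d : ℝ | ∀ (m : ℕ) (H : SimpleGraph (Fin m)),
          d ≤ 2 * (H.edgeSet.ncard : ℝ) / (m : ℝ) →
          ∃ f : Fin k → Fin m, Function.Injective f ∧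
            ∃ P : ∀ i j : Fin k, H.Walk (f i) (f j),
              (∀ i j : Fin k, i < j → (P i j).IsPath) ∧
              (∀ i j i' j' : Fin k, i < j → i' < j' → (i ≠ i' ∨ j ≠ j') →
                (P i j).edges.Disjoint (P i' j').edges)} ≤ imm k := by
  set thr : Set ℝ := {d : ℝ | ∀ (m : ℕ) (H : SimpleGraph (Fin m)),
          d ≤ 2 * (H.edgeSet.ncard : ℝ) / (m : ℝ) →
          ∃ f : Fin k → Fin m, Function.Injective f ∧
            ∃ P : ∀ i j : Fin k, H.Walk (f i) (f j),
              (∀ i j : Fin k, i < j → (P i j).IsPath) ∧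
              (∀ i j i' j' : Fin k, i < j → i' < j' → (i ≠ i' ∨ j ≠ j') →
                (P i j).edges.Disjoint (P i' j').edges)} with hthr
  have hpos : ∀ d ∈ thr, 0 < d := by
    intro d hd
    by_contra hcon
    obtain ⟨f, -, -⟩ := hd 0 ⊥ (by simpa using hcon)
    exact (f ⟨0, hk⟩).elim0
  have hbdd : BddBelow thr := ⟨0, fun d hd => (hpos d hd).le⟩
  -- a positive threshold for nonempty graphs is a threshold for all graphs
  have hmem : ∀ d : ℝ, 0 < d → (∀ (m : ℕ) (H : SimpleGraph (Fin m)), 1 ≤ m → d ≤ avgDeg H →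
      Nonempty (CliqueImmersion H k)) → d ∈ thr := by
    intro d hd h m H hH
    rcases Nat.eq_zero_or_pos m with rfl | hm
    · exfalso
      have : (2 * (H.edgeSet.ncard : ℝ) / ((0 : ℕ) : ℝ)) = 0 := by simp
      rw [this] at hH
      linarith
    · obtain ⟨I⟩ := h m H hm hH
      exact ⟨I.f, I.inj, I.P, I.isPath, I.disj⟩
  unfold imm
  set st : Set ℝ := {d : ℝ | ∀ (m : ℕ) (H : SimpleGraph (Fin m)), 1 ≤ m → d ≤ avgDeg H →
    Nonempty (CliqueImmersion H k)} with hst
  by_cases hneg : ∃ d ∈ st, d ≤ 0
  · obtain ⟨d, hd, hd0⟩ := hneg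
    have hk1 : k = 1 := by
      obtain ⟨I⟩ := hd 1 ⊥ le_rfl (by
        unfold avgDeg
        exact hd0.trans (by positivity))
      have := k_le_one_of_fin_one I
      omega
    subst hk1
    have hall : ∀ (m : ℕ) (H : SimpleGraph (Fin m)), 1 ≤ m → Nonempty (CliqueImmersion H 1) := by
      intro m H hm
      refine ⟨⟨fun _ => ⟨0, hm⟩, fun i j _ => Subsingleton.elim i j, fun _ _ => SimpleGraph.Walk.nil,
        fun i j hij => ?_, fun i j _ _ hij => ?_⟩⟩
      · exact absurd hij (by rw [Subsingleton.elim i j]; exact lt_irrefl _)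
      · exact absurd hij (by rw [Subsingleton.elim i j]; exact lt_irrefl _)
    have hst' : st = Set.univ := Set.eq_univ_of_forall fun d m H hm _ => hall m H hm
    rw [hst', Real.sInf_univ]
    refine le_of_forall_pos_le_add fun e he => ?_
    rw [zero_add]
    exact csInf_le hbdd (hmem e he fun m H hm _ => hall m H hm)
  · push Not at hneg
    rcases st.eq_empty_or_nonempty with he | hne
    · have : thr = ∅ := by
        rw [Set.eq_empty_iff_forall_notMem]
        intro d hd
        have : d ∈ st := by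
          intro m H _ hH
          obtain ⟨f, hf, P, h1, h2⟩ := hd m H hH
          exact ⟨⟨f, hf, P, h1, h2⟩⟩
        rw [he] at this
        exact this
      rw [this, he]
    · refine le_csInf hne fun d hd => csInf_le hbdd (hmem d (hneg d hd) hd)

theorem result : ∀ (k : ℕ), 1 ≤ k → ∀ ε : ℝ, 0 < ε → ∃ α : ℝ, 0 < α ∧
    ∀ (n : ℕ), 2 ≤ n → ∀ G : SimpleGraph (Fin n), imm k + ε ≤ avgDeg G →
      ∃ I : CliqueImmersion G k, (I.verts.ncard : ℝ) ≤ α * Real.log n := by
  intro k hk ε hε
  obtain ⟨α, hα⟩ := ImmLog.main k hk ε hε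
  refine ⟨max α 1, lt_of_lt_of_le one_pos (le_max_right _ _), fun n hn G hG => ?_⟩
  obtain ⟨f, hf, P, h1, h2, h3⟩ := hα n G ((add_le_add_left (thr_le_imm k hk) ε).trans hG)
  refine ⟨⟨f, hf, P, h1, h2⟩, h3.trans ?_⟩
  have hlog : 0 ≤ Real.log n := Real.log_nonneg (by exact_mod_cast (by omega : 1 ≤ n))
  exact mul_le_mul_of_nonneg_right (le_max_left _ _) hlog

end Pool.Agent.Results.MP_66278f_co.SmallImmersion
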